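import Pool.Agent.Lib.MP_458f0b_nt.Pois.PNTa

/-! Primes congruent to three modulo eight divide most edges of an Euler brick. -/

open Finset Filter

namespace Pool.Agent.FS.LargeEdge

variable {F : Type} [Field F] [Fintype F] [DecidableEq F]

theorem corr (hF : ringChar F ≠ 2) {b b' : F} (h : b ≠ b') :
    ∑ t : F, quadraticChar F (t + b) * quadraticChar F (t + b') = -1 := by
  have hc : b' - b ≠ 0 := sub_ne_zero.2 h.symm
  have e1 : ∑ t : F, quadraticChar F (t + b) * quadraticChar F (t + b')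
      = ∑ t : F, quadraticChar F t * quadraticChar F (t + (b' - b)) :=
    Fintype.sum_equiv (Equiv.addRight b) _ _ fun t => by simp
  have e2 : ∑ t : F, quadraticChar F (1 + (b' - b) * t⁻¹) = 0 := by
    rw [← quadraticChar_sum_zero hF]
    exact Fintype.sum_equiv ((Equiv.inv F).trans ((Equiv.mulLeft₀ _ hc).trans (Equiv.addLeft 1)))
      _ _ fun t => by simp
  have e3 : ∀ t : F, quadraticChar F t * quadraticChar F (t + (b' - b))
      = quadraticChar F (1 + (b' - b) * t⁻¹) - if t = 0 then 1 else 0 := fun t => by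
    split_ifs with ht
    · simp [ht]
    · rw [← map_mul, show t * (t + (b' - b)) = t ^ 2 * (1 + (b' - b) * t⁻¹) by field_simp,
        map_mul, quadraticChar_sq_one' ht]
      ring
  rw [e1, sum_congr rfl fun t _ => e3 t, sum_sub_distrib, e2]
  simp

theorem clique {κ : Type} [DecidableEq κ] (hF : ringChar F ≠ 2) (I : Finset κ) (a : κ → F)
    (hinj : Set.InjOn a I) (h : ∀ i ∈ I, ∀ j ∈ I, i ≠ j → quadraticChar F (a i + a j) = 1)
    (h2 : 2 ≤ I.card) : ((I.card : ℤ) - 2) ^ 2 ≤ Fintype.card F := by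
  have hle : ∀ t : F, -1 ≤ quadraticChar F t ∧ quadraticChar F t * quadraticChar F t ≤ 1 := by
    intro t
    rcases quadraticChar_isQuadratic F t with h | h | h <;> simp [h]
  have hI : (2 : ℤ) ≤ I.card := by exact_mod_cast h2
  have up : ∑ t : F, (∑ j ∈ I, quadraticChar F (t + a j)) ^ 2 ≤ I.card * Fintype.card F := by
    simp only [sq, sum_mul_sum]
    rw [sum_comm, ← nsmul_eq_mul]
    refine sum_le_card_nsmul _ _ _ fun i hi => ?_
    rw [sum_comm, ← add_sum_erase _ _ hi]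
    have d1 : ∑ t : F, quadraticChar F (t + a i) * quadraticChar F (t + a i) ≤ Fintype.card F := by
      have := sum_le_card_nsmul univ
        (fun t : F => quadraticChar F (t + a i) * quadraticChar F (t + a i)) 1 fun t _ => (hle _).2
      simpa using this
    have d2 : ∑ j ∈ I.erase i, ∑ t : F, quadraticChar F (t + a i) * quadraticChar F (t + a j) ≤ 0 :=
      sum_nonpos fun j hj => by
        rw [corr hF fun e => (ne_of_mem_erase hj).symm (hinj hi (mem_of_mem_erase hj) e)]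
        norm_num
    linarith
  have lo : (I.card : ℤ) * ((I.card : ℤ) - 2) ^ 2
      ≤ ∑ t : F, (∑ j ∈ I, quadraticChar F (t + a j)) ^ 2 := by
    refine le_trans ?_ (sum_le_sum_of_subset_of_nonneg (subset_univ (I.image a))
      fun _ _ _ => sq_nonneg _)
    rw [sum_image hinj, ← nsmul_eq_mul]
    refine card_nsmul_le_sum _ _ _ fun i hi => pow_le_pow_left₀ (by linarith) ?_ 2
    rw [← add_sum_erase _ _ hi,
      sum_congr rfl fun j hj => h i hi j (mem_of_mem_erase hj) (ne_of_mem_erase hj).symm]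
    have := (hle (a i + a i)).1
    rw [sum_const, card_erase_of_mem hi, nsmul_eq_mul, Nat.cast_sub (by omega)]
    push_cast
    linarith
  exact le_of_mul_le_mul_left (lo.trans up) (by linarith)

theorem coprime_few {n p s : ℕ} (x : Fin n → ℕ)
    (hs : ∀ i j, i ≠ j → IsSquare (x i ^ 2 + x j ^ 2)) (hp : p.Prime) (h8 : p % 8 = 3)
    (hps : p ≤ s ^ 2) : (univ.filter fun i => ¬ p ∣ x i).card ≤ s + 2 := by
  have : Fact p.Prime := ⟨hp⟩
  by_contra hc
  have p2 : p ≠ 2 := by omega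
  have h0 : ∀ i ∈ univ.filter fun i => ¬ p ∣ x i, (x i : ZMod p) ≠ 0 := fun i hi =>
    fun h => (mem_filter.1 hi).2 ((ZMod.natCast_eq_zero_iff _ _).1 h)
  have hsq : ∀ i j, i ≠ j → IsSquare ((x i : ZMod p) ^ 2 + (x j : ZMod p) ^ 2) := fun i j h => by
    simpa using (hs i j h).map (Nat.castRingHom (ZMod p))
  have := clique (F := ZMod p) (by rwa [ZMod.ringChar_zmod_n]) (univ.filter fun i => ¬ p ∣ x i)
    (fun i => (x i : ZMod p) ^ 2) (fun i hi j _ e => by_contra fun h => ?_)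
    (fun i hi j _ h => (quadraticChar_one_iff_isSquare fun e => ?_).2 (hsq i j h)) (by omega)
  · rw [ZMod.card] at this
    have h1 : (s : ℤ) + 2 < (univ.filter fun i => ¬ p ∣ x i).card := by
      exact_mod_cast not_le.1 hc
    have h2 : (p : ℤ) ≤ s ^ 2 := by exact_mod_cast hps
    have h3 : (0 : ℤ) ≤ s := by positivity
    nlinarith
  · obtain ⟨r, hr⟩ := hsq i j h
    have x0 := h0 i hi
    have e' : (x i : ZMod p) ^ 2 = (x j : ZMod p) ^ 2 := e
    have : IsSquare (2 : ZMod p) := ⟨r / x i, by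
      field_simp
      linear_combination hr + e'⟩
    have := (ZMod.exists_sq_eq_two_iff p2).1 this
    omega
  · have x0 := h0 i hi
    have : IsSquare (-1 : ZMod p) := ⟨x j / x i, by
      field_simp
      linear_combination -e⟩
    have := ZMod.exists_sq_eq_neg_one_iff.1 this
    omega

theorem log_sum {n s : ℕ} (x : Fin n → ℕ) (hx : ∀ i, 0 < x i)
    (hs : ∀ i j, i ≠ j → IsSquare (x i ^ 2 + x j ^ 2)) (P : Finset ℕ)
    (hP : ∀ p ∈ P, p.Prime ∧ p % 8 = 3 ∧ p ≤ s ^ 2) (hn : 2 * (s + 2) ≤ n) :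
    (n : ℝ) / 2 * ∑ p ∈ P, Real.log p ≤ ∑ i, Real.log (x i) := by
  have h1 : ∀ i, ∑ p ∈ P, (if p ∣ x i then Real.log p else 0) ≤ Real.log (x i) := fun i => by
    rw [← sum_filter, ← Real.log_prod fun p hp => by
      exact_mod_cast (hP p (mem_filter.1 hp).1).1.ne_zero]
    have hd : ∏ p ∈ P.filter (· ∣ x i), p ∣ x i :=
      Finset.prod_primes_dvd _ (fun p hp => (hP p (mem_filter.1 hp).1).1.prime)
        fun p hp => (mem_filter.1 hp).2
    refine Real.log_le_log (prod_pos fun p hp => by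
      exact_mod_cast (hP p (mem_filter.1 hp).1).1.pos) ?_
    rw [← Nat.cast_prod]
    exact_mod_cast Nat.le_of_dvd (hx i) hd
  refine le_trans ?_ (sum_le_sum fun i _ => h1 i)
  rw [sum_comm, mul_sum]
  refine sum_le_sum fun p hp => ?_
  obtain ⟨a1, a2, a3⟩ := hP p hp
  rw [← sum_filter, sum_const, nsmul_eq_mul]
  refine mul_le_mul_of_nonneg_right ?_ (Real.log_natCast_nonneg p)
  have c1 := coprime_few x hs a1 a2 a3
  have c2 := card_filter_add_card_filter_not (s := (univ : Finset (Fin n))) fun i => p ∣ x i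
  rw [card_univ, Fintype.card_fin] at c2
  have : n ≤ 2 * (univ.filter fun i => p ∣ x i).card := by omega
  have : (n : ℝ) ≤ 2 * (univ.filter fun i => p ∣ x i).card := by exact_mod_cast this
  linarith

theorem primes : ∃ X₀ : ℕ, ∀ X ≥ X₀, ∃ P : Finset ℕ,
    (∀ p ∈ P, p.Prime ∧ p % 8 = 3 ∧ p ≤ X) ∧ (X : ℝ) / 16 ≤ ∑ p ∈ P, Real.log p := by
  obtain ⟨X₀, h⟩ := eventually_atTop.1
    (Pool.Agent.Lib.MP_458f0b_nt.Pois.pnt_unif 8 (by norm_num) 3 (by norm_num) (1 / 8)
      (by norm_num))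
  refine ⟨X₀ + 1, fun X hX => ⟨(Icc 1 X).filter fun p => p.Prime ∧ X < p ^ 2 ∧ p ≡ 3 [MOD 8],
    fun p hp => ?_, ?_⟩⟩
  · obtain ⟨a, b, -, c⟩ := mem_filter.1 hp
    exact ⟨b, c, (mem_Icc.1 a).2⟩
  · have h1 := (abs_le.1 (h X (by omega) X le_rfl)).1
    have h8 : ((Nat.totient 8 : ℕ) : ℝ) = 4 := by
      rw [show Nat.totient 8 = 4 by decide]; norm_num
    rw [h8] at h1
    have h2 := card_nsmul_le_sum
      ((Icc 1 X).filter fun p => p.Prime ∧ X < p ^ 2 ∧ p ≡ 3 [MOD 8])
      (fun p => Real.log p) (Real.log X / 2) fun p hp => by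
        have a : (X : ℝ) ≤ (p : ℝ) ^ 2 := by exact_mod_cast (mem_filter.1 hp).2.2.1.le
        have b := Real.log_le_log (by exact_mod_cast (by omega : 0 < X)) a
        rw [Real.log_pow] at b
        push_cast at b
        linarith
    rw [nsmul_eq_mul] at h2
    linarith

theorem main : ∃ c : ℝ, 0 < c ∧ ∀ n : ℕ, 2 ≤ n → ∀ x : Fin n → ℕ, (∀ i, 0 < x i) →
    (∀ i j, i ≠ j → IsSquare (x i ^ 2 + x j ^ 2)) → ∃ i, Real.exp (c * n ^ 2) ≤ x i := by
  obtain ⟨X₀, h⟩ := primes
  obtain ⟨N, hN⟩ : ∃ N : ℕ, N = 4 * X₀ + 16 := ⟨_, rfl⟩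
  have N0 : (16 : ℝ) ≤ N := by exact_mod_cast (by omega : 16 ≤ N)
  have l2 : (1 : ℝ) / 2 ≤ Real.log 2 := by linarith [Real.log_two_gt_d9]
  refine ⟨min (1 / 2048) (1 / (2 * N ^ 2)), by positivity, fun n hn x hx hs => ?_⟩
  obtain ⟨i, -, hi⟩ := exists_max_image univ x ⟨⟨0, by omega⟩, mem_univ _⟩
  have xi : (0 : ℝ) < x i := by exact_mod_cast hx i
  refine ⟨i, (Real.le_log_iff_exp_le xi).1 ?_⟩
  have n0 : (0 : ℝ) < n := by exact_mod_cast (by omega : 0 < n)
  rcases le_total n N with hnN | hnN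
  · have x2 : 2 ≤ x i := by
      by_contra hc
      have a := hi ⟨0, by omega⟩ (mem_univ _)
      have b := hi ⟨1, by omega⟩ (mem_univ _)
      have a' := hx ⟨0, by omega⟩
      have b' := hx ⟨1, by omega⟩
      have := hs ⟨0, by omega⟩ ⟨1, by omega⟩ (by simp)
      rw [show x ⟨0, by omega⟩ = 1 by omega, show x ⟨1, by omega⟩ = 1 by omega] at this
      exact Nat.prime_two.not_isSquare this
    have a : Real.log 2 ≤ Real.log (x i) := Real.log_le_log two_pos (by exact_mod_cast x2)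
    have b : (n : ℝ) ≤ N := by exact_mod_cast hnN
    calc _ ≤ 1 / (2 * (N : ℝ) ^ 2) * N ^ 2 := by gcongr; exact min_le_right _ _
      _ = 1 / 2 := by field_simp
      _ ≤ _ := l2.trans a
  · obtain ⟨s, hs4⟩ : ∃ s, s = n / 4 := ⟨_, rfl⟩
    obtain ⟨P, hP, hl⟩ := h (s ^ 2) (by nlinarith [show X₀ + 4 ≤ s by omega])
    have a := log_sum x hx hs P hP (by omega)
    have b : ∑ j, Real.log (x j) ≤ n * Real.log (x i) := by
      have := sum_le_card_nsmul univ (fun j => Real.log (x j)) (Real.log (x i)) fun j _ =>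
        Real.log_le_log (by exact_mod_cast hx j) (by exact_mod_cast hi j (mem_univ _))
      simpa using this
    have c : (n : ℝ) ≤ 8 * s := by exact_mod_cast (by omega : n ≤ 8 * s)
    have d : (s : ℝ) ^ 2 / 32 ≤ Real.log (x i) := by
      refine le_of_mul_le_mul_left ?_ n0
      push_cast at hl
      nlinarith
    calc _ ≤ 1 / 2048 * (8 * (s : ℝ)) ^ 2 := by gcongr; exact min_le_left _ _
      _ = (s : ℝ) ^ 2 / 32 := by ring
      _ ≤ _ := d

end Pool.Agent.FS.LargeEdge
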